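import Pool.Agent.Q176.WL.A1

/-! One-dimensional tests at a minimum, slices. -/

namespace Pool.Agent.Q176.WL

open Set Filter Topology

lemma snd_nonneg {φ φ1 : ℝ → ℝ} {x0 c : ℝ} (h1 : ∀ᶠ x in 𝓝 x0, HasDerivAt φ (φ1 x) x)
    (h2 : HasDerivAt φ1 c x0) (hm : IsLocalMin φ x0) : φ1 x0 = 0 ∧ 0 ≤ c := by
  have hd : deriv φ =ᶠ[𝓝 x0] φ1 := by
    filter_upwards [h1] with x hx using hx.deriv
  have h0 : HasDerivAt φ (φ1 x0) x0 := h1.self_of_nhds
  have hz : φ1 x0 = 0 := hm.hasDerivAt_eq_zero h0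
  refine ⟨hz, ?_⟩
  by_contra hc
  push Not at hc
  have hdd : deriv (deriv φ) x0 = c := by
    rw [hd.deriv_eq]; exact h2.deriv
  have hmax : IsLocalMax φ x0 := isLocalMax_of_deriv_deriv_neg (by rw [hdd]; exact hc)
    (by rw [h0.deriv, hz]) h0.continuousAt
  have hconst : φ =ᶠ[𝓝 x0] fun _ => φ x0 := by
    filter_upwards [hmax, hm] with x hx hx' using le_antisymm hx hx'
  have hdc : deriv φ =ᶠ[𝓝 x0] deriv (fun _ => φ x0) := hconst.deriv
  have : deriv (deriv φ) x0 = 0 := by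
    rw [hdc.deriv_eq]; simp
  rw [hdd] at this
  linarith

lemma left_nonpos {φ : ℝ → ℝ} {t0 c : ℝ} (h : HasDerivAt φ c t0)
    (hm : ∀ᶠ t in 𝓝[<] t0, φ t0 ≤ φ t) : c ≤ 0 := by
  have h1 : Tendsto (slope φ t0) (𝓝[<] t0) (𝓝 c) :=
    (hasDerivAt_iff_tendsto_slope.1 h).mono_left (nhdsWithin_mono _ (fun x hx => ne_of_lt hx))
  refine le_of_tendsto h1 ?_
  filter_upwards [hm, self_mem_nhdsWithin] with t ht htt
  have h2 : t < t0 := htt
  rw [slope_def_field]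
  exact div_nonpos_of_nonneg_of_nonpos (by linarith) (by linarith)

lemma slice_t {F : E → ℝ} {t x y : ℝ} (h : DifferentiableAt ℝ F (t, x, y)) :
    HasDerivAt (fun s => F (s, x, y)) (pd et F (t, x, y)) t := by
  have h1 : HasDerivAt (fun s : ℝ => ((s, x, y) : E)) et t :=
    (hasDerivAt_id t).prodMk ((hasDerivAt_const t x).prodMk (hasDerivAt_const t y))
  exact h.hasFDerivAt.comp_hasDerivAt t h1

lemma slice_x {F : E → ℝ} {t x y : ℝ} (h : DifferentiableAt ℝ F (t, x, y)) :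
    HasDerivAt (fun s => F (t, s, y)) (pd ex F (t, x, y)) x := by
  have h1 : HasDerivAt (fun s : ℝ => ((t, s, y) : E)) ex x :=
    (hasDerivAt_const x t).prodMk ((hasDerivAt_id x).prodMk (hasDerivAt_const x y))
  exact h.hasFDerivAt.comp_hasDerivAt x h1

lemma slice_y {F : E → ℝ} {t x y : ℝ} (h : DifferentiableAt ℝ F (t, x, y)) :
    HasDerivAt (fun s => F (t, x, s)) (pd ey F (t, x, y)) y := by
  have h1 : HasDerivAt (fun s : ℝ => ((t, x, s) : E)) ey y :=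
    (hasDerivAt_const y t).prodMk ((hasDerivAt_const y x).prodMk (hasDerivAt_id y))
  exact h.hasFDerivAt.comp_hasDerivAt y h1

lemma pslice_x {f : ℝ × ℝ → ℝ} {x y : ℝ} (h : DifferentiableAt ℝ f (x, y)) :
    HasDerivAt (fun s => f (s, y)) (dx f (x, y)) x := by
  have h1 : HasDerivAt (fun s : ℝ => ((s, y) : ℝ × ℝ)) (1, 0) x :=
    (hasDerivAt_id x).prodMk (hasDerivAt_const x y)
  exact h.hasFDerivAt.comp_hasDerivAt x h1

lemma pslice_y {f : ℝ × ℝ → ℝ} {x y : ℝ} (h : DifferentiableAt ℝ f (x, y)) :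
    HasDerivAt (fun s => f (x, s)) (dy f (x, y)) y := by
  have h1 : HasDerivAt (fun s : ℝ => ((x, s) : ℝ × ℝ)) (0, 1) y :=
    (hasDerivAt_const y x).prodMk (hasDerivAt_id y)
  exact h.hasFDerivAt.comp_hasDerivAt y h1

/-- The parameters of the barrier. -/
structure Par where
  lam : ℝ
  mu : ℝ
  ka : ℝ
  A1 : ℝ
  A2 : ℝ
  A3 : ℝ
  y1 : ℝ
  y2 : ℝ
  X0 : ℝ
  δ : ℝ
  M : ℝ

variable (q : Par) (L : ℝ → ℝ)

/-- Squared radius of the moving box. -/
noncomputable def Xb (t : ℝ) : ℝ := q.X0 - 2 * q.δ * q.y2 * (1 - Real.exp (-L t))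

noncomputable def G1 (t D : ℝ) : ℝ :=
  Real.exp (q.A1 * t - q.lam * (D * Real.exp (-L t) - q.y1))

noncomputable def G2 (t D : ℝ) : ℝ :=
  Real.exp (q.A2 * t - q.mu * (q.y2 - D * Real.exp (L t)))

noncomputable def G3 (t R : ℝ) : ℝ :=
  Real.exp (q.A3 * t - q.ka * (Xb q L t - R))

/-- The sum of the three barriers (`D` distance, `R` squared distance to the centre). -/
noncomputable def Gs (t D R : ℝ) : ℝ := G1 q L t D + G2 q L t D + G3 q L t R

variable {q L}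

lemma Gs_t {t D R l : ℝ} (hL : HasDerivAt L l t) :
    HasDerivAt (fun t => Gs q L t D R)
      (G1 q L t D * (q.A1 + q.lam * D * l * Real.exp (-L t))
       + G2 q L t D * (q.A2 + q.mu * D * l * Real.exp (L t))
       + G3 q L t R * (q.A3 + 2 * q.ka * q.δ * q.y2 * l * Real.exp (-L t))) t := by
  have hm : HasDerivAt (fun t => Real.exp (-L t)) (Real.exp (-L t) * (-l)) t := hL.neg.exp
  have hp : HasDerivAt (fun t => Real.exp (L t)) (Real.exp (L t) * l) t := hL.exp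
  have hX : HasDerivAt (Xb q L) (2 * q.δ * q.y2 * (Real.exp (-L t) * (-l))) t := by
    have := (((hasDerivAt_const t (1:ℝ)).sub hm).const_mul (2 * q.δ * q.y2)).const_sub q.X0
    refine (this.congr_deriv ?_)
    ring
  have hid := hasDerivAt_id t
  have g1 : HasDerivAt (fun t => G1 q L t D)
      (G1 q L t D * (q.A1 * 1 - q.lam * (D * (Real.exp (-L t) * (-l))))) t :=
    ((hid.const_mul q.A1).sub (((hm.const_mul D).sub_const q.y1).const_mul q.lam)).exp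
  have g2 : HasDerivAt (fun t => G2 q L t D)
      (G2 q L t D * (q.A2 * 1 - q.mu * (-(D * (Real.exp (L t) * l))))) t :=
    ((hid.const_mul q.A2).sub (((hp.const_mul D).const_sub q.y2).const_mul q.mu)).exp
  have g3 : HasDerivAt (fun t => G3 q L t R)
      (G3 q L t R * (q.A3 * 1 - q.ka * (2 * q.δ * q.y2 * (Real.exp (-L t) * (-l))))) t :=
    ((hid.const_mul q.A3).sub ((hX.sub_const R).const_mul q.ka)).exp
  refine ((g1.add g2).add g3).congr_deriv ?_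
  ring

/-- The derivative of the sum of the barriers along a line in space: `D'`, `R'` the derivatives of
the distance function and of the squared distance to the centre. -/
noncomputable def Gd (q : Par) (L : ℝ → ℝ) (t D R D' R' : ℝ) : ℝ :=
  -(q.lam * Real.exp (-L t) * D') * G1 q L t D + q.mu * Real.exp (L t) * D' * G2 q L t D
    + q.ka * R' * G3 q L t R

noncomputable def Gdd (q : Par) (L : ℝ → ℝ) (t D R D' R' D'' R'' : ℝ) : ℝ :=
  ((q.lam * Real.exp (-L t) * D') ^ 2 - q.lam * Real.exp (-L t) * D'') * G1 q L t D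
    + ((q.mu * Real.exp (L t) * D') ^ 2 + q.mu * Real.exp (L t) * D'') * G2 q L t D
    + ((q.ka * R') ^ 2 + q.ka * R'') * G3 q L t R

lemma g1_s {D : ℝ → ℝ} {D' t s : ℝ} (hD : HasDerivAt D D' s) :
    HasDerivAt (fun s => G1 q L t (D s)) (-(q.lam * Real.exp (-L t) * D') * G1 q L t (D s)) s := by
  have := ((((hD.mul_const (Real.exp (-L t))).sub_const q.y1).const_mul q.lam).const_sub
      (q.A1 * t)).exp
  refine this.congr_deriv ?_
  unfold G1; ring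

lemma g2_s {D : ℝ → ℝ} {D' t s : ℝ} (hD : HasDerivAt D D' s) :
    HasDerivAt (fun s => G2 q L t (D s)) (q.mu * Real.exp (L t) * D' * G2 q L t (D s)) s := by
  have := ((((hD.mul_const (Real.exp (L t))).const_sub q.y2).const_mul q.mu).const_sub
      (q.A2 * t)).exp
  refine this.congr_deriv ?_
  unfold G2; ring

lemma g3_s {R : ℝ → ℝ} {R' t s : ℝ} (hR : HasDerivAt R R' s) :
    HasDerivAt (fun s => G3 q L t (R s)) (q.ka * R' * G3 q L t (R s)) s := by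
  have := (((hR.const_sub (Xb q L t)).const_mul q.ka).const_sub (q.A3 * t)).exp
  refine this.congr_deriv ?_
  unfold G3; ring

lemma Gs_s {D R : ℝ → ℝ} {D' R' t s : ℝ} (hD : HasDerivAt D D' s) (hR : HasDerivAt R R' s) :
    HasDerivAt (fun s => Gs q L t (D s) (R s)) (Gd q L t (D s) (R s) D' R') s := by
  exact ((g1_s hD).add (g2_s hD)).add (g3_s hR)

lemma Gd_s {D R D1 R1 : ℝ → ℝ} {D'' R'' t s : ℝ} (hD : HasDerivAt D (D1 s) s)
    (hR : HasDerivAt R (R1 s) s) (hD1 : HasDerivAt D1 D'' s) (hR1 : HasDerivAt R1 R'' s) :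
    HasDerivAt (fun s => Gd q L t (D s) (R s) (D1 s) (R1 s))
      (Gdd q L t (D s) (R s) (D1 s) (R1 s) D'' R'') s := by
  have a1 := ((hD1.const_mul (q.lam * Real.exp (-L t))).neg).mul (g1_s (q := q) (L := L) (t := t) hD)
  have a2 := (hD1.const_mul (q.mu * Real.exp (L t))).mul (g2_s (q := q) (L := L) (t := t) hD)
  have a3 := (hR1.const_mul q.ka).mul (g3_s (q := q) (L := L) (t := t) hR)
  refine ((a1.add a2).add a3).congr_deriv ?_
  unfold Gdd; simp only [Pi.neg_apply]; ring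

/-- The sum of the barriers is a supersolution where `|(u,v)| ≤ l D`. -/
lemma super {t D R Dx Dy Rx Ry Dl l u v : ℝ} (hlam : 0 ≤ q.lam) (hmu : 0 ≤ q.mu) (hka : 0 ≤ q.ka)
    (hδ : 0 < q.δ) (hl : 0 ≤ l)
    (hD : 0 < D) (huv : u ^ 2 + v ^ 2 ≤ (l * D) ^ 2) (hL0 : 0 ≤ L t)
    (hM : Real.exp (L t) ≤ q.M) (hy2 : D ≤ q.y2 * Real.exp (-L t))
    (hg : Dx ^ 2 + Dy ^ 2 ≤ 1) (hR : Rx ^ 2 + Ry ^ 2 ≤ 4 * q.δ ^ 2) (hDl : |Dl| ≤ 1 / q.δ)
    (hA1 : q.lam ^ 2 + q.lam / q.δ ≤ q.A1) (hA2 : q.mu ^ 2 * q.M ^ 2 + q.mu * q.M / q.δ ≤ q.A2)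
    (hA3 : 4 * q.ka ^ 2 * q.δ ^ 2 + 4 * q.ka ≤ q.A3) {Dxx Dyy Rxx Ryy : ℝ}
    (hDD : Dxx + Dyy = Dl) (hRR : Rxx + Ryy = 4) :
    0 ≤ (G1 q L t D * (q.A1 + q.lam * D * l * Real.exp (-L t))
       + G2 q L t D * (q.A2 + q.mu * D * l * Real.exp (L t))
       + G3 q L t R * (q.A3 + 2 * q.ka * q.δ * q.y2 * l * Real.exp (-L t)))
      + u * Gd q L t D R Dx Rx + v * Gd q L t D R Dy Ry
      - Gdd q L t D R Dx Rx Dxx Rxx - Gdd q L t D R Dy Ry Dyy Ryy := by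
  have p1 : 0 < G1 q L t D := Real.exp_pos _
  have p2 : 0 < G2 q L t D := Real.exp_pos _
  have p3 : 0 < G3 q L t R := Real.exp_pos _
  unfold Gd Gdd
  set em := Real.exp (-L t) with hem
  set ep := Real.exp (L t) with hep
  have em0 : 0 < em := Real.exp_pos _
  have ep0 : 0 < ep := Real.exp_pos _
  have em1 : em ≤ 1 := by rw [hem]; exact Real.exp_le_one_iff.2 (by linarith)
  have hlD : 0 ≤ l * D := mul_nonneg hl hD.le
  -- drift in the direction of the wall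
  have dr : |u * Dx + v * Dy| ≤ l * D := by
    apply abs_le_of_sq_le_sq _ hlD
    have e : (u * Dx + v * Dy) ^ 2 ≤ (u ^ 2 + v ^ 2) * (Dx ^ 2 + Dy ^ 2) := by
      have i1 := sq_nonneg (u * Dy - v * Dx)
      linarith [show (u ^ 2 + v ^ 2) * (Dx ^ 2 + Dy ^ 2) = (u * Dx + v * Dy) ^ 2
        + (u * Dy - v * Dx) ^ 2 by ring]
    calc (u * Dx + v * Dy) ^ 2 ≤ (u ^ 2 + v ^ 2) * (Dx ^ 2 + Dy ^ 2) := e
      _ ≤ (u ^ 2 + v ^ 2) * 1 := mul_le_mul_of_nonneg_left hg (by positivity)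
      _ ≤ (l * D) ^ 2 := by linarith
  have dr' : |u * Rx + v * Ry| ≤ 2 * q.δ * (l * D) := by
    apply abs_le_of_sq_le_sq _ (by positivity)
    have e : (u * Rx + v * Ry) ^ 2 ≤ (u ^ 2 + v ^ 2) * (Rx ^ 2 + Ry ^ 2) := by
      have i1 := sq_nonneg (u * Ry - v * Rx)
      linarith [show (u ^ 2 + v ^ 2) * (Rx ^ 2 + Ry ^ 2) = (u * Rx + v * Ry) ^ 2
        + (u * Ry - v * Rx) ^ 2 by ring]
    calc (u * Rx + v * Ry) ^ 2 ≤ (u ^ 2 + v ^ 2) * (Rx ^ 2 + Ry ^ 2) := e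
      _ ≤ (l * D) ^ 2 * (4 * q.δ ^ 2) := by
          apply mul_le_mul huv hR (by positivity) (by positivity)
      _ = (2 * q.δ * (l * D)) ^ 2 := by ring
  obtain ⟨d1, d2⟩ := abs_le.1 dr
  obtain ⟨d3, d4⟩ := abs_le.1 dr'
  obtain ⟨d5, d6⟩ := abs_le.1 hDl
  have hly : l * D ≤ l * (q.y2 * em) := mul_le_mul_of_nonneg_left hy2 hl
  have hδ1 : 0 < 1 / q.δ := by positivity
  have t1 : 0 ≤ q.A1 + q.lam * D * l * em - q.lam * em * (u * Dx + v * Dy)
      - (q.lam * em) ^ 2 * (Dx ^ 2 + Dy ^ 2) + q.lam * em * Dl := by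
    have a1 : 0 ≤ q.lam * em * (l * D - (u * Dx + v * Dy)) :=
      mul_nonneg (mul_nonneg hlam em0.le) (by linarith)
    have a2 : (q.lam * em) ^ 2 * (Dx ^ 2 + Dy ^ 2) ≤ q.lam ^ 2 := by
      calc (q.lam * em) ^ 2 * (Dx ^ 2 + Dy ^ 2) ≤ (q.lam * em) ^ 2 * 1 :=
            mul_le_mul_of_nonneg_left hg (sq_nonneg _)
        _ = q.lam ^ 2 * em ^ 2 := by ring
        _ ≤ q.lam ^ 2 * 1 :=
            mul_le_mul_of_nonneg_left (pow_le_one₀ em0.le em1) (sq_nonneg _)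
        _ = q.lam ^ 2 := by ring
    have a3 : -(q.lam / q.δ) ≤ q.lam * em * Dl := by
      have b1 : 0 ≤ q.lam * em := mul_nonneg hlam em0.le
      have b2 : q.lam * em * (-(1 / q.δ)) ≤ q.lam * em * Dl := mul_le_mul_of_nonneg_left d5 b1
      have b3 : q.lam * em * (1 / q.δ) ≤ q.lam * 1 * (1 / q.δ) :=
        mul_le_mul_of_nonneg_right (mul_le_mul_of_nonneg_left em1 hlam) hδ1.le
      have b4 : q.lam / q.δ = q.lam * 1 * (1 / q.δ) := by ring
      rw [b4]; linarith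
    linarith
  have t2 : 0 ≤ q.A2 + q.mu * D * l * ep + q.mu * ep * (u * Dx + v * Dy)
      - (q.mu * ep) ^ 2 * (Dx ^ 2 + Dy ^ 2) - q.mu * ep * Dl := by
    have a1 : 0 ≤ q.mu * ep * (l * D + (u * Dx + v * Dy)) :=
      mul_nonneg (mul_nonneg hmu ep0.le) (by linarith)
    have a2 : (q.mu * ep) ^ 2 * (Dx ^ 2 + Dy ^ 2) ≤ q.mu ^ 2 * q.M ^ 2 := by
      calc (q.mu * ep) ^ 2 * (Dx ^ 2 + Dy ^ 2) ≤ (q.mu * ep) ^ 2 * 1 :=
            mul_le_mul_of_nonneg_left hg (sq_nonneg _)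
        _ = q.mu ^ 2 * ep ^ 2 := by ring
        _ ≤ q.mu ^ 2 * q.M ^ 2 :=
            mul_le_mul_of_nonneg_left (pow_le_pow_left₀ ep0.le hM 2) (sq_nonneg _)
    have a3 : q.mu * ep * Dl ≤ q.mu * q.M / q.δ := by
      have b1 : 0 ≤ q.mu * ep := mul_nonneg hmu ep0.le
      have b2 : q.mu * ep * Dl ≤ q.mu * ep * (1 / q.δ) := mul_le_mul_of_nonneg_left d6 b1
      have b3 : q.mu * ep * (1 / q.δ) ≤ q.mu * q.M * (1 / q.δ) :=
        mul_le_mul_of_nonneg_right (mul_le_mul_of_nonneg_left hM hmu) hδ1.le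
      have b4 : q.mu * q.M / q.δ = q.mu * q.M * (1 / q.δ) := by ring
      rw [b4]; linarith
    linarith
  have t3 : 0 ≤ q.A3 + 2 * q.ka * q.δ * q.y2 * l * em + q.ka * (u * Rx + v * Ry)
      - q.ka ^ 2 * (Rx ^ 2 + Ry ^ 2) - q.ka * 4 := by
    have a1 : 0 ≤ q.ka * (2 * q.δ * (l * (q.y2 * em)) + (u * Rx + v * Ry)) := by
      apply mul_nonneg hka
      have : 2 * q.δ * (l * D) ≤ 2 * q.δ * (l * (q.y2 * em)) :=
        mul_le_mul_of_nonneg_left hly (by positivity)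
      linarith
    have a2 : q.ka ^ 2 * (Rx ^ 2 + Ry ^ 2) ≤ q.ka ^ 2 * (4 * q.δ ^ 2) :=
      mul_le_mul_of_nonneg_left hR (sq_nonneg _)
    linarith
  have s1 := mul_nonneg p1.le t1
  have s2 := mul_nonneg p2.le t2
  have s3 := mul_nonneg p3.le t3
  have hDxx : Dxx = Dl - Dyy := by linarith
  have hRxx : Rxx = 4 - Ryy := by linarith
  rw [hDxx, hRxx]
  refine (add_nonneg (add_nonneg s1 s2) s3).trans (le_of_eq ?_)
  ring

end Pool.Agent.Q176.WL
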