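import Pool.Agent.Q176.WL.A2

/-! The comparison in the moving box. -/

namespace Pool.Agent.Q176.WL

open Set Filter Topology

/-- The moving box up to time `T'`. -/
def Bx (Ω : Set (ℝ × ℝ)) (c : ℝ × ℝ) (d : ℝ × ℝ → ℝ) (q : Par) (L : ℝ → ℝ) (T' : ℝ) : Set E :=
  {z | z.1 ∈ Icc 0 T' ∧ z.2 ∈ closure Ω ∧ dsq z.2 c ≤ Xb q L z.1 ∧
    q.y1 * Real.exp (L z.1) ≤ d z.2 ∧ d z.2 ≤ q.y2 * Real.exp (-L z.1)}

structure Good (Ω : Set (ℝ × ℝ)) (c : ℝ × ℝ) (d : ℝ × ℝ → ℝ) (q : Par) (L l : ℝ → ℝ) (T δ : ℝ) :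
    Prop where
  wall : IsWall Ω c δ d
  hT : 0 < T
  hδ : q.δ = δ
  lam0 : 0 ≤ q.lam
  mu0 : 0 ≤ q.mu
  ka0 : 0 ≤ q.ka
  y1 : 0 < q.y1
  y20 : 0 ≤ q.y2
  X0 : q.X0 < δ ^ 2
  Lc : Continuous L
  L0 : L 0 = 0
  Ld : ∀ t ∈ Ioo 0 T, HasDerivAt L (l t) t
  l0 : ∀ t ∈ Ioo 0 T, 0 ≤ l t
  hM : Real.exp (L T) ≤ q.M
  hA1 : q.lam ^ 2 + q.lam / q.δ ≤ q.A1
  hA2 : q.mu ^ 2 * q.M ^ 2 + q.mu * q.M / q.δ ≤ q.A2
  hA3 : 4 * q.ka ^ 2 * q.δ ^ 2 + 4 * q.ka ≤ q.A3

variable {Ω : Set (ℝ × ℝ)} {c : ℝ × ℝ} {d : ℝ × ℝ → ℝ} {q : Par} {L l : ℝ → ℝ} {T δ : ℝ}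

lemma Good.qδ (h : Good Ω c d q L l T δ) : 0 < q.δ := by rw [h.hδ]; exact h.wall.radius_pos

lemma Good.mono (h : Good Ω c d q L l T δ) : MonotoneOn L (Icc 0 T) := by
  apply monotoneOn_of_deriv_nonneg (convex_Icc 0 T) h.Lc.continuousOn
  · intro t ht
    rw [interior_Icc] at ht
    exact (h.Ld t ht).differentiableAt.differentiableWithinAt
  · intro t ht
    rw [interior_Icc] at ht
    rw [(h.Ld t ht).deriv]
    exact h.l0 t ht

lemma Good.nonneg (h : Good Ω c d q L l T δ) {t : ℝ} (ht : t ∈ Icc 0 T) : 0 ≤ L t := by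
  have := h.mono (left_mem_Icc.2 h.hT.le) ht ht.1
  rw [h.L0] at this
  exact this

lemma Good.Xle (h : Good Ω c d q L l T δ) {t : ℝ} (ht : t ∈ Icc 0 T) : Xb q L t ≤ q.X0 := by
  unfold Xb
  have h1 : Real.exp (-L t) ≤ 1 := Real.exp_le_one_iff.2 (by linarith [h.nonneg ht])
  have h2 : 0 ≤ 2 * q.δ * q.y2 * (1 - Real.exp (-L t)) :=
    mul_nonneg (mul_nonneg (by linarith [h.qδ]) h.y20) (by linarith)
  linarith

lemma Xb_cont (hL : Continuous L) : Continuous (Xb q L) := by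
  unfold Xb; fun_prop

lemma dsq_cont (c : ℝ × ℝ) : Continuous (fun z : ℝ × ℝ => dsq z c) := by
  unfold dsq; fun_prop

lemma Good.compact (h : Good Ω c d q L l T δ) {T' : ℝ} (hT' : T' ≤ T) :
    IsCompact (Bx Ω c d q L T') := by
  have hLc := h.Lc
  have hX := Xb_cont (q := q) hLc
  set S : Set E := {z | z.1 ∈ Icc 0 T' ∧ z.2 ∈ closure Ω ∧ dsq z.2 c ≤ Xb q L z.1} with hS
  have hScl : IsClosed S := by
    have e : S = {z : E | z.1 ∈ Icc 0 T'} ∩ ({z : E | z.2 ∈ closure Ω} ∩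
        {z : E | dsq z.2 c ≤ Xb q L z.1}) := by
      ext z; simp only [hS, mem_ofPred_eq, mem_inter_iff]
    rw [e]
    refine IsClosed.inter (isClosed_Icc.preimage continuous_fst)
      (IsClosed.inter (isClosed_closure.preimage continuous_snd) ?_)
    exact isClosed_le ((dsq_cont c).comp continuous_snd) (hX.comp continuous_fst)
  have hSd : ∀ z ∈ S, dsq z.2 c < δ ^ 2 := by
    rintro z ⟨h1, _, h3⟩
    exact lt_of_le_of_lt (h3.trans (h.Xle ⟨h1.1, h1.2.trans hT'⟩)) h.X0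
  have hδ0 := h.wall.radius_pos
  have hSK : S ⊆ Icc 0 T ×ˢ (Icc (c.1 - δ) (c.1 + δ) ×ˢ Icc (c.2 - δ) (c.2 + δ)) := by
    rintro ⟨t, x, y⟩ hz
    have h3 := hSd _ hz
    obtain ⟨h1, _, _⟩ := hz
    simp only [dsq] at h3 h1
    have e1 : (x - c.1) ^ 2 ≤ δ ^ 2 := by nlinarith [sq_nonneg (y - c.2)]
    have e2 : (y - c.2) ^ 2 ≤ δ ^ 2 := by nlinarith [sq_nonneg (x - c.1)]
    have f1 := abs_le.1 (abs_le_of_sq_le_sq e1 hδ0.le)
    have f2 := abs_le.1 (abs_le_of_sq_le_sq e2 hδ0.le)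
    exact ⟨⟨h1.1, h1.2.trans hT'⟩, ⟨by linarith [f1.1], by linarith [f1.2]⟩,
      ⟨by linarith [f2.1], by linarith [f2.2]⟩⟩
  have hdS : ContinuousOn (fun z : E => d z.2) S := by
    refine h.wall.cont.comp continuous_snd.continuousOn ?_
    intro z hz
    exact ⟨hz.2.1, hSd z hz⟩
  have c1 : ContinuousOn (fun z : E => d z.2 - q.y1 * Real.exp (L z.1)) S :=
    hdS.sub (by fun_prop)
  have c2 : ContinuousOn (fun z : E => q.y2 * Real.exp (-L z.1) - d z.2) S :=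
    ContinuousOn.sub (by fun_prop) hdS
  have cl1 := c1.preimage_isClosed_of_isClosed hScl (isClosed_Ici (a := (0:ℝ)))
  have cl2 := c2.preimage_isClosed_of_isClosed hScl (isClosed_Ici (a := (0:ℝ)))
  have hcl : IsClosed (Bx Ω c d q L T') := by
    have e : Bx Ω c d q L T' = (S ∩ (fun z : E => d z.2 - q.y1 * Real.exp (L z.1)) ⁻¹' Ici 0) ∩
        (S ∩ (fun z : E => q.y2 * Real.exp (-L z.1) - d z.2) ⁻¹' Ici 0) := by
      ext z
      simp only [Bx, hS, mem_ofPred_eq, mem_inter_iff, mem_preimage, mem_Ici, sub_nonneg]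
      tauto
    rw [e]; exact cl1.inter cl2
  have hcp : IsCompact (Icc 0 T ×ˢ (Icc (c.1 - δ) (c.1 + δ) ×ˢ Icc (c.2 - δ) (c.2 + δ))) :=
    isCompact_Icc.prod (isCompact_Icc.prod isCompact_Icc)
  refine IsCompact.of_isClosed_subset hcp hcl (Subset.trans ?_ hSK)
  rintro z ⟨a1, a2, a3, _, _⟩
  exact ⟨a1, a2, a3⟩

lemma Good.sub (h : Good Ω c d q L l T δ) {T' : ℝ} (hT' : T' ≤ T) {z : E}
    (hz : z ∈ Bx Ω c d q L T') : z.1 ∈ Icc 0 T ∧ z.2 ∈ Reg Ω c δ := by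
  obtain ⟨h1, h2, h3, h4, h5⟩ := hz
  have ht : z.1 ∈ Icc 0 T := ⟨h1.1, h1.2.trans hT'⟩
  have hlt : dsq z.2 c < δ ^ 2 := lt_of_le_of_lt (h3.trans (h.Xle ht)) h.X0
  refine ⟨ht, ?_, hlt⟩
  by_contra hn
  have hf : z.2 ∈ frontier Ω := by
    rw [h.wall.isOpen.frontier_eq]; exact ⟨h2, hn⟩
  have := h.wall.zero _ hf hlt
  rw [this] at h4
  have := mul_pos h.y1 (Real.exp_pos (L z.1))
  linarith

lemma isOpen_Reg (h : IsWall Ω c δ d) : IsOpen (Reg Ω c δ) := by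
  have : Reg Ω c δ = Ω ∩ {z | dsq z c < δ ^ 2} := by
    ext z; simp only [Reg, mem_ofPred_eq, mem_inter_iff]
  rw [this]
  exact h.isOpen.inter (isOpen_lt (dsq_cont c) continuous_const)

lemma qdiff {f : ℝ × ℝ → ℝ} {U : Set (ℝ × ℝ)} (hU : IsOpen U) (hf : ContDiffOn ℝ 2 f U)
    {z : ℝ × ℝ} (hz : z ∈ U) : DifferentiableAt ℝ f z :=
  ((hf.contDiffAt (hU.mem_nhds hz)).differentiableAt (by norm_num))

lemma qdiff1 {f : ℝ × ℝ → ℝ} {U : Set (ℝ × ℝ)} (hU : IsOpen U) (hf : ContDiffOn ℝ 2 f U)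
    {z : ℝ × ℝ} (hz : z ∈ U) : DifferentiableAt ℝ (dx f) z ∧ DifferentiableAt ℝ (dy f) z := by
  have h2 : ContDiffOn ℝ 1 (fun z => fderiv ℝ f z) U := hf.fderiv_of_isOpen hU (by norm_num)
  have h3 := (h2.contDiffAt (hU.mem_nhds hz)).differentiableAt (by norm_num)
  exact ⟨h3.clm_apply (differentiableAt_const _), h3.clm_apply (differentiableAt_const _)⟩

theorem compare (h : Good Ω c d q L l T δ) {u v w : E → ℝ} {K a : ℝ}
    (hw : ContinuousOn w (Icc 0 T ×ˢ Reg Ω c δ))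
    (hw2 : ContDiffOn ℝ ((2 : ℕ) : ℕ∞) w (Ioo 0 T ×ˢ Reg Ω c δ))
    (heq : ∀ z ∈ Ioo 0 T ×ˢ Reg Ω c δ, pd et w z + u z * pd ex w z + v z * pd ey w z
      = pd ex (pd ex w) z + pd ey (pd ey w) z)
    (huv : ∀ z ∈ Ioo 0 T ×ˢ Reg Ω c δ, u z ^ 2 + v z ^ 2 ≤ (l z.1 * d z.2) ^ 2)
    (hK : ∀ z ∈ Ioo 0 T ×ˢ Reg Ω c δ, |w z| ≤ K) (haK : a ≤ K) (hK0 : 0 ≤ K)
    (h0 : ∀ z ∈ Reg Ω c δ, a ≤ w (0, z))
    {T' : ℝ} (hT' : T' < T) {z : E} (hz : z ∈ Bx Ω c d q L T') :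
    a ≤ w z + 2 * K * Gs q L z.1 (d z.2) (dsq z.2 c) := by
  have hGpos : ∀ t x y, 0 ≤ Gs q L t x y := fun t x y => by
    unfold Gs G1 G2 G3; positivity
  suffices H : ∀ ε > 0, a ≤ w z + 2 * K * Gs q L z.1 (d z.2) (dsq z.2 c) + ε * z.1 by
    refine le_of_forall_pos_le_add ?_
    intro η hη
    have hz1 : 0 ≤ z.1 := hz.1.1
    have := H (η / (z.1 + 1)) (by positivity)
    have h2 : η / (z.1 + 1) * z.1 ≤ η := by
      rw [div_mul_eq_mul_div, div_le_iff₀ (by positivity)]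
      nlinarith
    linarith
  intro ε hε
  set f : E → ℝ := fun z => w z + 2 * K * Gs q L z.1 (d z.2) (dsq z.2 c) + ε * z.1 with hf
  have hOp : IsOpen (Ioo 0 T ×ˢ Reg Ω c δ) := isOpen_Ioo.prod (isOpen_Reg h.wall)
  have hRO := isOpen_Reg h.wall
  have hsubC : Bx Ω c d q L T' ⊆ Icc 0 T ×ˢ Reg Ω c δ := fun z hz => h.sub hT'.le hz
  have hdc : ContinuousOn (fun z : E => d z.2) (Bx Ω c d q L T') :=
    h.wall.smooth.continuousOn.comp continuous_snd.continuousOn (fun z hz => (hsubC hz).2)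
  have hXc := Xb_cont (q := q) h.Lc
  have hLc := h.Lc
  have hfc : ContinuousOn f (Bx Ω c d q L T') := by
    refine ((hw.mono hsubC).add ?_).add ?_
    · have hds : Continuous (fun z : E => dsq z.2 c) := (dsq_cont c).comp continuous_snd
      unfold Gs G1 G2 G3
      have e1 : ContinuousOn (fun z : E => Real.exp (-L z.1)) (Bx Ω c d q L T') := by fun_prop
      have e2 : ContinuousOn (fun z : E => Real.exp (L z.1)) (Bx Ω c d q L T') := by fun_prop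
      have e3 : ContinuousOn (fun z : E => Xb q L z.1) (Bx Ω c d q L T') :=
        (hXc.comp continuous_fst).continuousOn
      have e4 : ContinuousOn (fun z : E => z.1) (Bx Ω c d q L T') := continuous_fst.continuousOn
      refine continuousOn_const.mul (((?_ : ContinuousOn _ _).add ?_).add ?_)
      · exact ((continuousOn_const.mul e4).sub (continuousOn_const.mul
          ((hdc.mul e1).sub continuousOn_const))).rexp
      · exact ((continuousOn_const.mul e4).sub (continuousOn_const.mul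
          (continuousOn_const.sub (hdc.mul e2)))).rexp
      · exact ((continuousOn_const.mul e4).sub (continuousOn_const.mul
          (e3.sub hds.continuousOn))).rexp
    · exact (continuous_const.mul continuous_fst).continuousOn
  obtain ⟨z0, hz0, hmin⟩ := (h.compact hT'.le).exists_isMinOn ⟨z, hz⟩ hfc
  have hmin' : ∀ z ∈ Bx Ω c d q L T', f z0 ≤ f z := fun z hz => hmin hz
  suffices H0 : a ≤ f z0 from H0.trans (hmin' z hz)
  obtain ⟨t0, x0, y0⟩ := z0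
  obtain ⟨ht, hR⟩ := h.sub hT'.le hz0
  obtain ⟨hb1, hb2, hb3, hb4, hb5⟩ := id hz0
  simp only at hb1 hb2 hb3 hb4 hb5 ht hR
  set D0 := d (x0, y0) with hD0
  set R0 := dsq (x0, y0) c with hR0
  rcases eq_or_lt_of_le ht.1 with h00 | ht0
  · -- initial time
    subst h00
    have h1 := h0 (x0, y0) hR
    have h2 := mul_nonneg (mul_nonneg (by norm_num : (0:ℝ) ≤ 2) hK0) (hGpos 0 D0 R0)
    simp only [hf]
    linarith
  have htT : t0 < T := lt_of_le_of_lt hb1.2 hT'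
  have hzC : ((t0, x0, y0) : E) ∈ Ioo 0 T ×ˢ Reg Ω c δ := ⟨⟨ht0, htT⟩, hR⟩
  have hwK := abs_le.1 (hK _ hzC)
  have g1p : 0 < G1 q L t0 D0 := Real.exp_pos _
  have g2p : 0 < G2 q L t0 D0 := Real.exp_pos _
  have g3p : 0 < G3 q L t0 R0 := Real.exp_pos _
  have hδq := h.qδ
  have hA1 : 0 ≤ q.A1 := le_trans (add_nonneg (sq_nonneg _) (div_nonneg h.lam0 hδq.le)) h.hA1
  have hM0 : 0 ≤ q.M := (Real.exp_pos _).le.trans h.hM
  have hA2 : 0 ≤ q.A2 := le_trans (add_nonneg (by positivity)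
    (div_nonneg (mul_nonneg h.mu0 hM0) hδq.le)) h.hA2
  have hA3 : 0 ≤ q.A3 := le_trans (add_nonneg (by positivity) (by linarith [h.ka0])) h.hA3
  have hbd : 1 ≤ Gs q L t0 D0 R0 → a ≤ f (t0, x0, y0) := by
    intro h1
    have h2 : 2 * K * 1 ≤ 2 * K * Gs q L t0 D0 R0 := mul_le_mul_of_nonneg_left h1 (by positivity)
    have h3 : 0 ≤ ε * t0 := by positivity
    simp only [hf]
    linarith [hwK.1]
  by_cases hx1 : R0 = Xb q L t0
  · apply hbd
    have : 1 ≤ G3 q L t0 R0 := by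
      unfold G3
      rw [hx1]
      apply Real.one_le_exp
      have : 0 ≤ q.A3 * t0 := by positivity
      linarith [show q.ka * (Xb q L t0 - Xb q L t0) = 0 by ring]
    unfold Gs; linarith
  by_cases hy1 : D0 = q.y1 * Real.exp (L t0)
  · apply hbd
    have : 1 ≤ G1 q L t0 D0 := by
      unfold G1
      apply Real.one_le_exp
      have e1 : D0 * Real.exp (-L t0) = q.y1 := by
        rw [hy1, mul_assoc, ← Real.exp_add]; simp
      rw [e1]
      have : 0 ≤ q.A1 * t0 := by positivity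
      linarith [show q.lam * (q.y1 - q.y1) = 0 by ring]
    unfold Gs; linarith
  by_cases hy2 : D0 = q.y2 * Real.exp (-L t0)
  · apply hbd
    have : 1 ≤ G2 q L t0 D0 := by
      unfold G2
      apply Real.one_le_exp
      have e1 : D0 * Real.exp (L t0) = q.y2 := by
        rw [hy2, mul_assoc, ← Real.exp_add]; simp
      rw [e1]
      have : 0 ≤ q.A2 * t0 := by positivity
      linarith [show q.mu * (q.y2 - q.y2) = 0 by ring]
    unfold Gs; linarith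
  -- interior point: contradiction
  exfalso
  have hxlt : R0 < Xb q L t0 := lt_of_le_of_ne hb3 hx1
  have hylt1 : q.y1 * Real.exp (L t0) < D0 := lt_of_le_of_ne hb4 (Ne.symm hy1)
  have hylt2 : D0 < q.y2 * Real.exp (-L t0) := lt_of_le_of_ne hb5 hy2
  have dw : ∀ z ∈ Ioo 0 T ×ˢ Reg Ω c δ, DifferentiableAt ℝ w z := fun z hz =>
    diffAt hOp (by norm_num) hw2 hz
  have dw1 : ∀ e, ∀ z ∈ Ioo 0 T ×ˢ Reg Ω c δ, DifferentiableAt ℝ (pd e w) z := fun e z hz =>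
    diffAt hOp (n := 1) (by norm_num) (pd_contDiffOn hOp hw2 e) hz
  have dd : ∀ z ∈ Reg Ω c δ, DifferentiableAt ℝ d z := fun z hz => qdiff hRO h.wall.smooth hz
  have hLt := h.Ld t0 ⟨ht0, htT⟩
  -- time derivative
  have ft : HasDerivAt (fun s => f (s, x0, y0)) _ t0 :=
    ((slice_t (dw _ hzC)).add ((Gs_t (q := q) (D := D0) (R := R0) hLt).const_mul (2 * K))).add
      ((hasDerivAt_id t0).const_mul ε)
  have hleft : ∀ᶠ t in 𝓝[<] t0, f (t0, x0, y0) ≤ f (t, x0, y0) := by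
    have : Ioo 0 t0 ∈ 𝓝[<] t0 := Ioo_mem_nhdsLT ht0
    filter_upwards [this] with t htt
    apply hmin'
    have hmo : L t ≤ L t0 := h.mono ⟨htt.1.le, (htt.2.trans htT).le⟩ ⟨ht0.le, htT.le⟩ htt.2.le
    refine ⟨⟨htt.1.le, htt.2.le.trans hb1.2⟩, hb2, ?_, ?_, ?_⟩
    · refine hb3.trans ?_
      unfold Xb
      have : Real.exp (-L t0) ≤ Real.exp (-L t) := Real.exp_le_exp.2 (by linarith)
      have := mul_le_mul_of_nonneg_left this
        (mul_nonneg (mul_nonneg (by norm_num : (0:ℝ) ≤ 2) hδq.le) h.y20)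
      simp only
      linarith
    · refine le_trans ?_ hb4
      exact mul_le_mul_of_nonneg_left (Real.exp_le_exp.2 hmo) h.y1.le
    · refine hb5.trans ?_
      exact mul_le_mul_of_nonneg_left (Real.exp_le_exp.2 (by simp only; linarith)) h.y20
  have c1 := left_nonpos ft hleft
  -- neighbourhoods in space
  have evR : ∀ᶠ z in 𝓝 ((x0, y0) : ℝ × ℝ), z ∈ Reg Ω c δ := hRO.mem_nhds hR
  have dcont : ContinuousAt d (x0, y0) := (dd _ hR).continuousAt
  have evB : ∀ᶠ z in 𝓝 ((x0, y0) : ℝ × ℝ), ((t0, z) : E) ∈ Bx Ω c d q L T' := by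
    have e1 : ∀ᶠ z in 𝓝 ((x0, y0) : ℝ × ℝ), dsq z c < Xb q L t0 :=
      ((dsq_cont c).tendsto (x0, y0)).eventually_lt_const hxlt
    have e2 : ∀ᶠ z in 𝓝 ((x0, y0) : ℝ × ℝ), q.y1 * Real.exp (L t0) < d z :=
      dcont.tendsto.eventually_const_lt hylt1
    have e3 : ∀ᶠ z in 𝓝 ((x0, y0) : ℝ × ℝ), d z < q.y2 * Real.exp (-L t0) :=
      dcont.tendsto.eventually_lt_const hylt2
    filter_upwards [evR, e1, e2, e3] with z h0 h1 h2 h3
    exact ⟨hb1, subset_closure h0.1, h1.le, h2.le, h3.le⟩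
  have tx : Tendsto (fun x : ℝ => ((x, y0) : ℝ × ℝ)) (𝓝 x0) (𝓝 (x0, y0)) :=
    (Continuous.prodMk continuous_id continuous_const).tendsto x0
  have ty : Tendsto (fun y : ℝ => ((x0, y) : ℝ × ℝ)) (𝓝 y0) (𝓝 (x0, y0)) :=
    (Continuous.prodMk continuous_const continuous_id).tendsto y0
  have mx : IsLocalMin (fun x => f (t0, x, y0)) x0 := by
    filter_upwards [tx.eventually evB] with x hxx
    exact hmin' _ hxx
  have my : IsLocalMin (fun y => f (t0, x0, y)) y0 := by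
    filter_upwards [ty.eventually evB] with y hyy
    exact hmin' _ hyy
  have hRx : ∀ x y : ℝ, HasDerivAt (fun x => dsq (x, y) c) (2 * (x - c.1)) x := by
    intro x y
    have := (((hasDerivAt_id x).sub_const c.1).pow 2).add_const ((y - c.2) ^ 2)
    refine (this.congr_deriv ?_)
    simp
  have hRy : ∀ x y : ℝ, HasDerivAt (fun y => dsq (x, y) c) (2 * (y - c.2)) y := by
    intro x y
    have := (((hasDerivAt_id y).sub_const c.2).pow 2).const_add ((x - c.1) ^ 2)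
    refine (this.congr_deriv ?_)
    simp
  have hRxx : ∀ x : ℝ, HasDerivAt (fun x => 2 * (x - c.1)) 2 x := by
    intro x
    have := ((hasDerivAt_id x).sub_const c.1).const_mul 2
    refine (this.congr_deriv ?_)
    simp
  have hRyy : ∀ y : ℝ, HasDerivAt (fun y => 2 * (y - c.2)) 2 y := by
    intro y
    have := ((hasDerivAt_id y).sub_const c.2).const_mul 2
    refine (this.congr_deriv ?_)
    simp
  have fx : ∀ᶠ x in 𝓝 x0, HasDerivAt (fun x => f (t0, x, y0))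
      ((fun x => pd ex w (t0, x, y0) + 2 * K * Gd q L t0 (d (x, y0)) (dsq (x, y0) c)
        (dx d (x, y0)) (2 * (x - c.1))) x) x := by
    filter_upwards [tx.eventually evR] with x hxx
    have hxC : ((t0, x, y0) : E) ∈ Ioo 0 T ×ˢ Reg Ω c δ := ⟨⟨ht0, htT⟩, hxx⟩
    exact (((slice_x (dw _ hxC)).add ((Gs_s (q := q) (L := L) (t := t0) (pslice_x (dd _ hxx))
      (hRx x y0)).const_mul (2 * K))).add_const (ε * t0))
  obtain ⟨ddx, ddy⟩ := qdiff1 hRO h.wall.smooth hR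
  have fxx := (slice_x (dw1 ex _ hzC)).add
    ((Gd_s (q := q) (L := L) (t := t0) (s := x0) (D := fun x => d (x, y0))
      (R := fun x => dsq (x, y0) c) (D1 := fun x => dx d (x, y0)) (R1 := fun x => 2 * (x - c.1))
      (pslice_x (dd _ hR)) (hRx x0 y0) (pslice_x ddx) (hRxx x0)).const_mul (2 * K))
  obtain ⟨cx1, cx2⟩ := snd_nonneg fx fxx mx
  have fy : ∀ᶠ y in 𝓝 y0, HasDerivAt (fun y => f (t0, x0, y))
      ((fun y => pd ey w (t0, x0, y) + 2 * K * Gd q L t0 (d (x0, y)) (dsq (x0, y) c)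
        (dy d (x0, y)) (2 * (y - c.2))) y) y := by
    filter_upwards [ty.eventually evR] with y hyy
    have hyC : ((t0, x0, y) : E) ∈ Ioo 0 T ×ˢ Reg Ω c δ := ⟨⟨ht0, htT⟩, hyy⟩
    exact (((slice_y (dw _ hyC)).add ((Gs_s (q := q) (L := L) (t := t0) (pslice_y (dd _ hyy))
      (hRy x0 y)).const_mul (2 * K))).add_const (ε * t0))
  have fyy := (slice_y (dw1 ey _ hzC)).add
    ((Gd_s (q := q) (L := L) (t := t0) (s := y0) (D := fun y => d (x0, y))
      (R := fun y => dsq (x0, y) c) (D1 := fun y => dy d (x0, y)) (R1 := fun y => 2 * (y - c.2))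
      (pslice_y (dd _ hR)) (hRy x0 y0) (pslice_y ddy) (hRyy y0)).const_mul (2 * K))
  obtain ⟨cy1, cy2⟩ := snd_nonneg fy fyy my
  have hRsq : (2 * (x0 - c.1)) ^ 2 + (2 * (y0 - c.2)) ^ 2 ≤ 4 * q.δ ^ 2 := by
    have : dsq (x0, y0) c < δ ^ 2 := hR.2
    rw [h.hδ]
    unfold dsq at this
    simp only at this
    nlinarith
  have hsup := super (q := q) (L := L) (t := t0) (D := D0) (R := R0) (l := l t0)
    (u := u (t0, x0, y0)) (v := v (t0, x0, y0)) (Dx := dx d (x0, y0)) (Dy := dy d (x0, y0))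
    (Rx := 2 * (x0 - c.1)) (Ry := 2 * (y0 - c.2))
    (Dl := dx (dx d) (x0, y0) + dy (dy d) (x0, y0))
    (Dxx := dx (dx d) (x0, y0)) (Dyy := dy (dy d) (x0, y0)) (Rxx := 2) (Ryy := 2)
    h.lam0 h.mu0 h.ka0 hδq (h.l0 t0 ⟨ht0, htT⟩) (h.wall.pos _ hR)
    (huv _ hzC) (h.nonneg ht)
    ((Real.exp_le_exp.2 (h.mono ht (right_mem_Icc.2 h.hT.le) htT.le)).trans h.hM) hb5
    (h.wall.grad _ hR) hRsq (by rw [h.hδ]; exact h.wall.lap _ hR) h.hA1 h.hA2 h.hA3 rfl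
    (by norm_num)
  have hE := heq _ hzC
  have hsup' := mul_nonneg (mul_nonneg (by norm_num : (0:ℝ) ≤ 2) hK0) hsup
  have e1 := congrArg (fun r => u (t0, x0, y0) * r) cx1
  have e2 := congrArg (fun r => v (t0, x0, y0) * r) cy1
  simp only [mul_zero] at e1 e2
  linarith [hsup', e1, e2, c1, cx2, cy2, hE, hε]

end Pool.Agent.Q176.WL
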