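import Pool.Agent.Q176.WL.A3

/-! Evaluation of the barrier and the main theorem. -/

namespace Pool.Agent.Q176.WL

open Set Filter Topology

/-- The parameters used in the proof. -/
noncomputable def qq (δ T Λ : ℝ) : Par where
  lam := δ * Real.exp (-Λ) ^ 2 / 64 / (4 * T)
  mu := δ * Real.exp (-Λ) ^ 2 / (64 * T)
  ka := 1 / (64 * T)
  A1 := (δ * Real.exp (-Λ) ^ 2 / 64 / (4 * T)) ^ 2 + (δ * Real.exp (-Λ) ^ 2 / 64 / (4 * T)) / δ
  A2 := (δ * Real.exp (-Λ) ^ 2 / (64 * T)) ^ 2 * Real.exp Λ ^ 2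
    + (δ * Real.exp (-Λ) ^ 2 / (64 * T)) * Real.exp Λ / δ
  A3 := 4 * (1 / (64 * T)) ^ 2 * δ ^ 2 + 4 * (1 / (64 * T))
  y1 := δ * Real.exp (-Λ) ^ 2 / 64
  y2 := δ / 8
  X0 := 3 / 4 * δ ^ 2
  δ := δ
  M := Real.exp Λ

lemma eval {δ T D R : ℝ} {L : ℝ → ℝ} (hδ : 0 < δ) (hT : 0 < T) (hL : 0 ≤ L T)
    (hTs : T ≤ δ ^ 2 * Real.exp (-L T) ^ 2 / 256)
    (hD1 : δ * Real.exp (-L T) / 32 ≤ D) (hD2 : D ≤ δ * Real.exp (-L T) / 16)
    (hR : R ≤ δ ^ 2 / 4) :
    Gs (qq δ T (L T)) L T D R ≤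
      3 * Real.exp (-(δ ^ 2 * Real.exp (-L T) ^ 4 / (2 ^ 15 * T))) := by
  set m := Real.exp (-L T) with hm
  have m0 : 0 < m := Real.exp_pos _
  have m1 : m ≤ 1 := by rw [hm]; exact Real.exp_le_one_iff.2 (by linarith)
  have hMm : Real.exp (L T) * m = 1 := by rw [hm, ← Real.exp_add]; simp
  set M := Real.exp (L T) with hM
  have M0 : 0 < M := Real.exp_pos _
  have hm2 : m ^ 2 ≤ 1 := pow_le_one₀ m0.le m1
  have hm4 : m ^ 4 ≤ m ^ 2 := pow_le_pow_of_le_one m0.le m1 (by norm_num)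
  have hδ2 : 0 < δ ^ 2 := by positivity
  -- first exponent
  have g1 : G1 (qq δ T (L T)) L T D ≤ Real.exp (-(δ ^ 2 * m ^ 4 / (2 ^ 15 * T))) := by
    unfold G1
    apply Real.exp_le_exp.2
    simp only [qq]
    rw [← hm]
    set h0 := δ * m ^ 2 / 64 with hh0
    have hh0p : 0 < h0 := by positivity
    have hlam : 0 < h0 / (4 * T) := by positivity
    have e1 : h0 ≤ D * m - h0 := by
      have : δ * m / 32 * m ≤ D * m := mul_le_mul_of_nonneg_right hD1 m0.le
      have e : δ * m / 32 * m = 2 * h0 := by rw [hh0]; ring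
      linarith
    have e2 : T / δ ≤ h0 / 4 := by
      rw [div_le_iff₀ hδ]
      calc T ≤ δ ^ 2 * m ^ 2 / 256 := hTs
        _ = h0 / 4 * δ := by rw [hh0]; ring
    have e3 : ((h0 / (4 * T)) ^ 2 + h0 / (4 * T) / δ) * T = h0 / (4 * T) * (h0 / 4 + T / δ) := by
      field_simp
    have e4 : h0 / (4 * T) * (h0 / 4 + T / δ) ≤ h0 / (4 * T) * (h0 / 2) :=
      mul_le_mul_of_nonneg_left (by linarith) hlam.le
    have e5 : h0 / (4 * T) * h0 ≤ h0 / (4 * T) * (D * m - h0) :=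
      mul_le_mul_of_nonneg_left e1 hlam.le
    have e6 : -(δ ^ 2 * m ^ 4 / (2 ^ 15 * T)) = h0 / (4 * T) * (h0 / 2) - h0 / (4 * T) * h0 := by
      rw [hh0]; field_simp; ring
    rw [e3, e6]
    linarith
  have g2 : G2 (qq δ T (L T)) L T D ≤ Real.exp (-(δ ^ 2 * m ^ 4 / (2 ^ 15 * T))) := by
    unfold G2
    apply Real.exp_le_exp.2
    simp only [qq]
    rw [← hm, ← hM]
    set mu := δ * m ^ 2 / (64 * T) with hmu
    have hmup : 0 < mu := by positivity
    have e1 : D * M ≤ δ / 16 := by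
      have : D * M ≤ δ * m / 16 * M := mul_le_mul_of_nonneg_right hD2 M0.le
      have e : δ * m / 16 * M = δ / 16 := by
        have : δ * m / 16 * M = δ / 16 * (M * m) := by ring
        rw [this, hMm, mul_one]
      linarith
    have e2 : T * M / δ ≤ δ / 64 := by
      rw [div_le_iff₀ hδ]
      have a1 : T * M ≤ δ ^ 2 * m ^ 2 / 256 * M := mul_le_mul_of_nonneg_right hTs M0.le
      have a2 : δ ^ 2 * m ^ 2 / 256 * M = δ ^ 2 * m / 256 * (M * m) := by ring
      rw [a2, hMm, mul_one] at a1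
      have a3 : δ ^ 2 * m ≤ δ ^ 2 * 1 := mul_le_mul_of_nonneg_left m1 hδ2.le
      nlinarith
    have e3 : (mu ^ 2 * M ^ 2 + mu * M / δ) * T = mu * (mu * M ^ 2 * T + T * M / δ) := by
      field_simp
    have e3' : mu * M ^ 2 * T = δ / 64 := by
      rw [hmu]
      have : δ * m ^ 2 / (64 * T) * M ^ 2 * T = δ / 64 * (M * m) ^ 2 := by field_simp
      rw [this, hMm]; ring
    have e4 : mu * (mu * M ^ 2 * T + T * M / δ) ≤ mu * (δ / 32) :=
      mul_le_mul_of_nonneg_left (by rw [e3']; linarith) hmup.le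
    have e5 : mu * (δ / 16) ≤ mu * (δ / 8 - D * M) :=
      mul_le_mul_of_nonneg_left (by linarith) hmup.le
    have e6 : mu * (δ / 32) - mu * (δ / 16) ≤ -(δ ^ 2 * m ^ 4 / (2 ^ 15 * T)) := by
      have b1 : mu * (δ / 32) - mu * (δ / 16) = -(δ ^ 2 * m ^ 2 / (2048 * T)) := by
        rw [hmu]; field_simp; ring
      rw [b1]
      apply neg_le_neg
      rw [div_le_div_iff₀ (by positivity) (by positivity)]
      have b2 : δ ^ 2 * m ^ 4 ≤ δ ^ 2 * m ^ 2 := mul_le_mul_of_nonneg_left hm4 hδ2.le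
      have b3 : 0 ≤ δ ^ 2 * m ^ 2 := by positivity
      calc δ ^ 2 * m ^ 4 * (2048 * T) ≤ δ ^ 2 * m ^ 2 * (2048 * T) :=
            mul_le_mul_of_nonneg_right b2 (by positivity)
        _ ≤ δ ^ 2 * m ^ 2 * (2 ^ 15 * T) := by
            apply mul_le_mul_of_nonneg_left _ b3
            nlinarith
    rw [e3]
    linarith
  have g3 : G3 (qq δ T (L T)) L T R ≤ Real.exp (-(δ ^ 2 * m ^ 4 / (2 ^ 15 * T))) := by
    unfold G3 Xb
    apply Real.exp_le_exp.2
    simp only [qq]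
    rw [← hm]
    set ka := 1 / (64 * T) with hka
    have hkap : 0 < ka := by positivity
    have e1 : δ ^ 2 / 4 ≤ 3 / 4 * δ ^ 2 - 2 * δ * (δ / 8) * (1 - m) - R := by
      have : 0 ≤ δ ^ 2 * m := by positivity
      nlinarith
    have e2 : 4 * T ≤ δ ^ 2 / 16 := by
      have : δ ^ 2 * m ^ 2 ≤ δ ^ 2 * 1 := mul_le_mul_of_nonneg_left hm2 hδ2.le
      linarith
    have e3 : (4 * ka ^ 2 * δ ^ 2 + 4 * ka) * T = ka * (4 * (ka * T) * δ ^ 2 + 4 * T) := by ring
    have e3' : ka * T = 1 / 64 := by rw [hka]; field_simp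
    have e4 : ka * (4 * (ka * T) * δ ^ 2 + 4 * T) ≤ ka * (δ ^ 2 / 8) :=
      mul_le_mul_of_nonneg_left (by rw [e3']; linarith) hkap.le
    have e5 : ka * (δ ^ 2 / 4) ≤ ka * (3 / 4 * δ ^ 2 - 2 * δ * (δ / 8) * (1 - m) - R) :=
      mul_le_mul_of_nonneg_left e1 hkap.le
    have e6 : ka * (δ ^ 2 / 8) - ka * (δ ^ 2 / 4) ≤ -(δ ^ 2 * m ^ 4 / (2 ^ 15 * T)) := by
      have b1 : ka * (δ ^ 2 / 8) - ka * (δ ^ 2 / 4) = -(δ ^ 2 / (512 * T)) := by
        rw [hka]; field_simp; ring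
      rw [b1]
      apply neg_le_neg
      rw [div_le_div_iff₀ (by positivity) (by positivity)]
      have b2 : δ ^ 2 * m ^ 4 ≤ δ ^ 2 * 1 := mul_le_mul_of_nonneg_left (hm4.trans hm2) hδ2.le
      calc δ ^ 2 * m ^ 4 * (512 * T) ≤ δ ^ 2 * 1 * (512 * T) :=
            mul_le_mul_of_nonneg_right b2 (by positivity)
        _ ≤ δ ^ 2 * (2 ^ 15 * T) := by
            rw [mul_one]
            apply mul_le_mul_of_nonneg_left _ hδ2.le
            nlinarith
    rw [e3]
    linarith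
  unfold Gs
  linarith

theorem main {Ω : Set (ℝ × ℝ)} {c : ℝ × ℝ} {δ : ℝ} {d : ℝ × ℝ → ℝ} (hd : IsWall Ω c δ d)
    {T : ℝ} (hT : 0 < T) {u v p w : E → ℝ} (hns : IsNS (Ioo 0 T ×ˢ Reg Ω c δ) u v p)
    (hw : ∀ z ∈ Ioo 0 T ×ˢ Reg Ω c δ, w z = pd ex v z - pd ey u z)
    (hwc : ContinuousOn w (Icc 0 T ×ˢ Reg Ω c δ))
    {L l : ℝ → ℝ} (hLc : ContinuousOn L (Icc 0 T)) (hL0 : L 0 = 0)
    (hLd : ∀ t ∈ Ioo 0 T, HasDerivAt L (l t) t) (hl : ∀ t ∈ Ioo 0 T, 0 ≤ l t)
    (huv : ∀ z ∈ Ioo 0 T ×ˢ Reg Ω c δ, u z ^ 2 + v z ^ 2 ≤ (l z.1 * d z.2) ^ 2)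
    {K a : ℝ} (ha : 0 < a) (haK : a ≤ K) (hK : ∀ z ∈ Ioo 0 T ×ˢ Reg Ω c δ, |w z| ≤ K)
    (h0 : ∀ z ∈ Reg Ω c δ, a ≤ w (0, z)) {z : ℝ × ℝ} (hz : z ∈ Reg Ω c δ)
    (hz1 : dsq z c ≤ δ ^ 2 / 4)
    (hz2 : δ * Real.exp (-L T) / 32 ≤ d z) (hz3 : d z ≤ δ * Real.exp (-L T) / 16) :
    a - 6 * K * Real.exp (-(δ ^ 2 * Real.exp (-L T) ^ 4 / (2 ^ 15 * T))) ≤ w (T, z) ∧
    ∀ b, 0 ≤ b → b < a → w (T, z) ≤ b →
      1 / 4 * Real.log (δ ^ 2 / (2 ^ 15 * T * Real.log (6 * K / (a - b)))) ≤ L T := by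
  have hδ := hd.radius_pos
  have hK0 : 0 < K := ha.trans_le haK
  have hOp : IsOpen (Ioo 0 T ×ˢ Reg Ω c δ) := isOpen_Ioo.prod (isOpen_Reg hd)
  obtain ⟨hw2, heq⟩ := vorticity_eq hOp hns hw
  -- monotone
  have hmono : MonotoneOn L (Icc 0 T) := by
    apply monotoneOn_of_deriv_nonneg (convex_Icc 0 T) hLc
    · intro t ht
      rw [interior_Icc] at ht
      exact (hLd t ht).differentiableAt.differentiableWithinAt
    · intro t ht
      rw [interior_Icc] at ht
      rw [(hLd t ht).deriv]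
      exact hl t ht
  have hLT : 0 ≤ L T := by
    have := hmono (left_mem_Icc.2 hT.le) (right_mem_Icc.2 hT.le) hT.le
    rwa [hL0] at this
  have mem_T : ((T, z) : E) ∈ Icc 0 T ×ˢ Reg Ω c δ := ⟨right_mem_Icc.2 hT.le, hz⟩
  -- limit along t → T
  have hlim : Tendsto (fun t : ℝ => w (t, z)) (𝓝[Ioo 0 T] T) (𝓝 (w (T, z))) := by
    have h1 : ContinuousWithinAt w (Icc 0 T ×ˢ Reg Ω c δ) (T, z) := hwc _ mem_T
    have h2 : Tendsto (fun t : ℝ => ((t, z) : E)) (𝓝[Ioo 0 T] T)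
        (𝓝[Icc 0 T ×ˢ Reg Ω c δ] (T, z)) := by
      apply tendsto_nhdsWithin_of_tendsto_nhds_of_eventually_within
      · exact ((Continuous.prodMk continuous_id continuous_const).tendsto T).mono_left
          nhdsWithin_le_nhds
      · filter_upwards [self_mem_nhdsWithin] with t ht using ⟨⟨ht.1.le, ht.2.le⟩, hz⟩
    exact h1.tendsto.comp h2
  have : (𝓝[Ioo 0 T] T).NeBot := by
    rw [← mem_closure_iff_nhdsWithin_neBot, closure_Ioo hT.ne]
    exact right_mem_Icc.2 hT.le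
  have hwT : -K ≤ w (T, z) := by
    refine ge_of_tendsto hlim ?_
    filter_upwards [self_mem_nhdsWithin] with t ht
    exact (abs_le.1 (hK _ ⟨ht, hz⟩)).1
  set m := Real.exp (-L T) with hm
  have m0 : 0 < m := Real.exp_pos _
  have m1 : m ≤ 1 := by rw [hm]; exact Real.exp_le_one_iff.2 (by linarith)
  set S := δ ^ 2 * m ^ 4 / (2 ^ 15 * T) with hS
  have S0 : 0 < S := by positivity
  have part1 : a - 6 * K * Real.exp (-S) ≤ w (T, z) := by
    rcases le_or_gt T (δ ^ 2 * m ^ 2 / 256) with hTs | hTs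
    · -- main case
      set L' : ℝ → ℝ := fun t => L (max 0 (min t T)) with hL'
      have hL'c : Continuous L' := by
        apply hLc.comp_continuous (by fun_prop)
        intro t
        exact ⟨le_max_left _ _, max_le hT.le (min_le_right _ _)⟩
      have hL'eq : ∀ t ∈ Icc 0 T, L' t = L t := by
        intro t ht
        simp only [hL']
        rw [min_eq_left ht.2, max_eq_right ht.1]
      have hL'T : L' T = L T := hL'eq T (right_mem_Icc.2 hT.le)
      have hG : Good Ω c d (qq δ T (L T)) L' l T δ := by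
        refine { wall := hd, hT := hT, hδ := rfl, lam0 := ?_, mu0 := ?_, ka0 := ?_, y1 := ?_,
                 y20 := ?_, X0 := ?_, Lc := hL'c, L0 := ?_, Ld := ?_, l0 := hl, hM := ?_,
                 hA1 := ?_, hA2 := ?_, hA3 := ?_ }
        · simp only [qq]; positivity
        · simp only [qq]; positivity
        · simp only [qq]; positivity
        · simp only [qq]; positivity
        · simp only [qq]; positivity
        · simp only [qq]; nlinarith [sq_pos_of_pos hδ]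
        · rw [hL'eq 0 (left_mem_Icc.2 hT.le), hL0]
        · intro t ht
          refine (hLd t ht).congr_of_eventuallyEq ?_
          filter_upwards [Ioo_mem_nhds ht.1 ht.2] with s hs
          exact hL'eq s ⟨hs.1.le, hs.2.le⟩
        · rw [hL'T]; simp [qq]
        · simp only [qq]; exact le_refl _
        · simp only [qq]; exact le_refl _
        · simp only [qq]; exact le_refl _
      have hbox : ∀ t ∈ Ioo 0 T, ((t, z) : E) ∈ Bx Ω c d (qq δ T (L T)) L' t := by
        intro t ht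
        have hLt : L' t ≤ L T := by
          rw [hL'eq t ⟨ht.1.le, ht.2.le⟩]
          exact hmono ⟨ht.1.le, ht.2.le⟩ (right_mem_Icc.2 hT.le) ht.2.le
        have hLt0 : 0 ≤ L' t := by
          have := hmono (left_mem_Icc.2 hT.le) ⟨ht.1.le, ht.2.le⟩ ht.1.le
          rw [hL0] at this
          rw [hL'eq t ⟨ht.1.le, ht.2.le⟩]; exact this
        refine ⟨⟨ht.1.le, le_refl _⟩, subset_closure hz.1, ?_, ?_, ?_⟩
        · simp only [Xb, qq]
          have e0 : 0 ≤ Real.exp (-L' t) := (Real.exp_pos _).le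
          have e1 : 0 ≤ δ ^ 2 * Real.exp (-L' t) := by positivity
          nlinarith
        · simp only [qq]
          rw [← hm]
          have e1 : Real.exp (L' t) ≤ Real.exp (L T) := Real.exp_le_exp.2 hLt
          have hMm : Real.exp (L T) * m = 1 := by rw [hm, ← Real.exp_add]; simp
          calc δ * m ^ 2 / 64 * Real.exp (L' t) ≤ δ * m ^ 2 / 64 * Real.exp (L T) :=
                mul_le_mul_of_nonneg_left e1 (by positivity)
            _ = δ * m / 64 * (Real.exp (L T) * m) := by ring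
            _ = δ * m / 64 := by rw [hMm, mul_one]
            _ ≤ δ * m / 32 := by
                have : 0 < δ * m := by positivity
                linarith
            _ ≤ d z := hz2
        · simp only [qq]
          have e1 : m ≤ Real.exp (-L' t) := Real.exp_le_exp.2 (by linarith)
          calc d z ≤ δ * m / 16 := hz3
            _ ≤ δ / 8 * m := by
                have : 0 < δ * m := by positivity
                linarith
            _ ≤ δ / 8 * Real.exp (-L' t) := mul_le_mul_of_nonneg_left e1 (by positivity)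
      have hcmp : ∀ t ∈ Ioo 0 T, a ≤ w (t, z) + 2 * K * Gs (qq δ T (L T)) L' t (d z) (dsq z c) :=
        fun t ht => compare hG hwc hw2 heq huv hK haK hK0.le h0 ht.2 (hbox t ht)
      have hGc : Continuous (fun t : ℝ => Gs (qq δ T (L T)) L' t (d z) (dsq z c)) := by
        have hXc := Xb_cont (q := qq δ T (L T)) hL'c
        unfold Gs G1 G2 G3
        fun_prop
      have hlimG : Tendsto (fun t : ℝ => w (t, z) + 2 * K * Gs (qq δ T (L T)) L' t (d z) (dsq z c))
          (𝓝[Ioo 0 T] T) (𝓝 (w (T, z) + 2 * K * Gs (qq δ T (L T)) L' T (d z) (dsq z c))) :=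
        hlim.add (((hGc.tendsto T).mono_left nhdsWithin_le_nhds).const_mul (2 * K))
      have hfin : a ≤ w (T, z) + 2 * K * Gs (qq δ T (L T)) L' T (d z) (dsq z c) := by
        refine ge_of_tendsto hlimG ?_
        filter_upwards [self_mem_nhdsWithin] with t ht using hcmp t ht
      have hev := eval (L := L') (D := d z) (R := dsq z c) hδ hT (by rw [hL'T]; exact hLT)
        (by rw [hL'T, ← hm]; exact hTs) (by rw [hL'T, ← hm]; exact hz2)
        (by rw [hL'T, ← hm]; exact hz3) hz1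
      rw [hL'T, ← hm, ← hS] at hev
      have := mul_le_mul_of_nonneg_left hev (by positivity : 0 ≤ 2 * K)
      linarith
    · -- trivial case
      have hS1 : S ≤ 1 / 128 := by
        rw [hS, div_le_iff₀ (by positivity)]
        have e1 : m ^ 4 ≤ m ^ 2 := pow_le_pow_of_le_one m0.le m1 (by norm_num)
        have e2 : δ ^ 2 * m ^ 4 ≤ δ ^ 2 * m ^ 2 := mul_le_mul_of_nonneg_left e1 (by positivity)
        nlinarith
      have e1 : 1 - S ≤ Real.exp (-S) := by
        have := Real.add_one_le_exp (-S)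
        linarith
      have e2 : (1:ℝ) / 2 ≤ Real.exp (-S) := by linarith
      have e3 : 6 * K * (1 / 2) ≤ 6 * K * Real.exp (-S) :=
        mul_le_mul_of_nonneg_left e2 (by positivity)
      linarith
  refine ⟨part1, ?_⟩
  intro b hb0 hba hwb
  have hab : 0 < a - b := by linarith
  have h1 : a - b ≤ 6 * K * Real.exp (-S) := by linarith
  have h2 : Real.exp S ≤ 6 * K / (a - b) := by
    rw [le_div_iff₀ hab]
    calc Real.exp S * (a - b) ≤ Real.exp S * (6 * K * Real.exp (-S)) :=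
          mul_le_mul_of_nonneg_left h1 (Real.exp_pos _).le
      _ = 6 * K * (Real.exp S * Real.exp (-S)) := by ring
      _ = 6 * K := by rw [← Real.exp_add]; simp
  have h3 : S ≤ Real.log (6 * K / (a - b)) := by
    rw [Real.le_log_iff_exp_le (lt_of_lt_of_le (Real.exp_pos _) h2)]
    exact h2
  set Q := Real.log (6 * K / (a - b)) with hQ
  have Q0 : 0 < Q := lt_of_lt_of_le S0 h3
  have h4 : δ ^ 2 * m ^ 4 ≤ 2 ^ 15 * T * Q := by
    rw [hS, div_le_iff₀ (by positivity)] at h3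
    linarith
  have h5 : δ ^ 2 / (2 ^ 15 * T * Q) ≤ Real.exp (4 * L T) := by
    rw [div_le_iff₀ (by positivity)]
    have e1 : Real.exp (4 * L T) * m ^ 4 = 1 := by
      rw [hm, ← Real.exp_nat_mul, ← Real.exp_add]
      norm_num
    calc δ ^ 2 = Real.exp (4 * L T) * (δ ^ 2 * m ^ 4) := by
          rw [show Real.exp (4 * L T) * (δ ^ 2 * m ^ 4) = δ ^ 2 * (Real.exp (4 * L T) * m ^ 4) by ring,
            e1, mul_one]
      _ ≤ Real.exp (4 * L T) * (2 ^ 15 * T * Q) :=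
          mul_le_mul_of_nonneg_left h4 (Real.exp_pos _).le
  have h6 : Real.log (δ ^ 2 / (2 ^ 15 * T * Q)) ≤ 4 * L T := by
    rw [Real.log_le_iff_le_exp (by positivity)]
    exact h5
  linarith

end Pool.Agent.Q176.WL
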