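import Mathlib

/-! Null control of the two-dimensional Navier-Stokes equations near an uncontrolled no-slip wall:
definitions. Points of space-time are triples `(t, x, y)`, the wall is `y = 0`. -/

namespace Pool.Agent.Q176.WL

open Set

/-- Space-time `(t, x, y)`. -/
abbrev E := ℝ × ℝ × ℝ

/-- The directions of `t`, `x`, `y`. -/
def et : E := (1, 0, 0)
def ex : E := (0, 1, 0)
def ey : E := (0, 0, 1)

/-- The partial derivative of `F` in the direction `e`. -/
noncomputable def pd (e : E) (F : E → ℝ) : E → ℝ := fun z => fderiv ℝ F z e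

/-- First partial derivatives of a function in the plane. -/
noncomputable def dx (f : ℝ × ℝ → ℝ) : ℝ × ℝ → ℝ := fun z => fderiv ℝ f z (1, 0)
noncomputable def dy (f : ℝ × ℝ → ℝ) : ℝ × ℝ → ℝ := fun z => fderiv ℝ f z (0, 1)

/-- The squared Euclidean distance in the plane. -/
def dsq (z c : ℝ × ℝ) : ℝ := (z.1 - c.1) ^ 2 + (z.2 - c.2) ^ 2

/-- The part of `Ω` in the open Euclidean disc with centre `c` and radius `δ`. -/
def Reg (Ω : Set (ℝ × ℝ)) (c : ℝ × ℝ) (δ : ℝ) : Set (ℝ × ℝ) := {z ∈ Ω | dsq z c < δ ^ 2}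

/-- `d` is a distance-like function of the boundary of the open set `Ω` inside the disc `B(c,δ)`:
continuous up to the boundary, `d > 0` in `Ω`, `d = 0` on `∂Ω`, `C²` in `Ω` with `|∇d| ≤ 1` and
`|Δd| ≤ 1/δ` (everything inside the disc). -/
structure IsWall (Ω : Set (ℝ × ℝ)) (c : ℝ × ℝ) (δ : ℝ) (d : ℝ × ℝ → ℝ) : Prop where
  isOpen : IsOpen Ω
  radius_pos : 0 < δ
  cont : ContinuousOn d {z ∈ closure Ω | dsq z c < δ ^ 2}
  pos : ∀ z ∈ Reg Ω c δ, 0 < d z
  zero : ∀ z ∈ frontier Ω, dsq z c < δ ^ 2 → d z = 0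
  smooth : ContDiffOn ℝ 2 d (Reg Ω c δ)
  grad : ∀ z ∈ Reg Ω c δ, dx d z ^ 2 + dy d z ^ 2 ≤ 1
  lap : ∀ z ∈ Reg Ω c δ, |dx (dx d) z + dy (dy d) z| ≤ 1 / δ

/-- `(u, v, p)` is a classical solution (`C³`, pressure `C²`) of the Navier-Stokes equations with
unit viscosity in the open set `O` of space-time:
`u_t + u u_x + v u_y - u_xx - u_yy + p_x = 0`,
`v_t + u v_x + v v_y - v_xx - v_yy + p_y = 0`, `u_x + v_y = 0`. -/
structure IsNS (O : Set E) (u v p : E → ℝ) : Prop where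
  smooth_u : ContDiffOn ℝ 3 u O
  smooth_v : ContDiffOn ℝ 3 v O
  smooth_p : ContDiffOn ℝ 2 p O
  eq_u : ∀ z ∈ O, pd et u z + u z * pd ex u z + v z * pd ey u z
    - pd ex (pd ex u) z - pd ey (pd ey u) z + pd ex p z = 0
  eq_v : ∀ z ∈ O, pd et v z + u z * pd ex v z + v z * pd ey v z
    - pd ex (pd ex v) z - pd ey (pd ey v) z + pd ey p z = 0
  div : ∀ z ∈ O, pd ex u z + pd ey v z = 0

end Pool.Agent.Q176.WL
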